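import Pool.Agent.N139.AS.Stm

/-!
# Project AS (helper139), part HST: Hilbert-Schmidt stability (helper277)
-/

set_option autoImplicit false

namespace Pool.Agent.N277.AS

open Finset Matrix Pool.Agent.N139.AS
open Pool.Agent.H698R3.Amalg (fro fn fro_nonneg fro_eq_re fro_sub_comm fro_mul_left fro_mul_right
  fn_nonneg fn_sq fn_sub_le fn_sub_comm fn_add_le fn_zero uh_mul mul_uh coe_inv_u
  HilbertSchmidtStable)

section proj

variable {d : ℕ}

lemma isP_fro {q : Mt d} (h : IsP q) : fro q = rtr q := by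
  rw [fro_eq_re, h.1.eq, h.2]
  rfl

lemma isP_compl {q : Mt d} (h : IsP q) : IsP (1 - q) := by
  refine ⟨?_, ?_⟩
  · show (1 - q)ᴴ = 1 - q
    rw [conjTranspose_sub, conjTranspose_one, h.1.eq]
  · rw [sub_mul, mul_sub, mul_sub, h.2]
    simp

lemma rtr_sub (a b : Mt d) : rtr (a - b) = rtr a - rtr b := by
  unfold rtr
  rw [Matrix.trace_sub, Complex.sub_re]

lemma rtr_add (a b : Mt d) : rtr (a + b) = rtr a + rtr b := by
  unfold rtr
  rw [Matrix.trace_add, Complex.add_re]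

lemma rtr_one : rtr (1 : Mt d) = d := by
  unfold rtr
  rw [Matrix.trace_one]
  simp

lemma rtr_comm (a b : Mt d) : rtr (a * b) = rtr (b * a) := by
  unfold rtr
  rw [Matrix.trace_mul_comm]

lemma rtr_nonneg {q : Mt d} (h : IsP q) : 0 ≤ rtr q := by
  rw [← isP_fro h]
  exact fro_nonneg _

lemma rtr_le {q : Mt d} (h : IsP q) : rtr q ≤ d := by
  have h1 := rtr_nonneg (isP_compl h)
  rw [rtr_sub, rtr_one] at h1
  linarith

/-- the distance of two projections of the same trace -/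
lemma fro_sub {q q' : Mt d} (h : IsP q) (h' : IsP q') (htr : rtr q' = rtr q) :
    fro (q - q') = 2 * rtr (q * (1 - q')) := by
  have e1 : (q - q')ᴴ * (q - q') = q - q * q' - q' * q + q' := by
    rw [conjTranspose_sub, h.1.eq, h'.1.eq, sub_mul, mul_sub, mul_sub, h.2, h'.2]
    abel
  have e2 : fro (q - q') = rtr (q - q * q' - q' * q + q') := by
    rw [fro_eq_re, e1]
    rfl
  rw [e2, rtr_add, rtr_sub, rtr_sub, mul_sub, rtr_sub, mul_one, rtr_comm q' q, htr]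
  ring

/-- the parts of a matrix -/
lemma fro_mul_proj {q : Mt d} (h : IsP q) (A : Mt d) : fro (A * q) = rtr (Aᴴ * A * q) := by
  rw [fro_eq_re, conjTranspose_mul, h.1.eq]
  show rtr (q * Aᴴ * (A * q)) = _
  rw [mul_assoc, rtr_comm, mul_assoc, mul_assoc, h.2, ← mul_assoc]

lemma fro_split {q1 q2 q3 : Mt d} (h1 : IsP q1) (h2 : IsP q2) (h3 : IsP q3)
    (h : q1 + q2 + q3 = 1) (A : Mt d) :
    fro A = fro (A * q1) + fro (A * q2) + fro (A * q3) := by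
  rw [fro_mul_proj h1, fro_mul_proj h2, fro_mul_proj h3, ← rtr_add, ← rtr_add, ← mul_add,
    ← mul_add, h, mul_one, fro_eq_re]
  rfl

end proj

section cj

variable {d : ℕ}

lemma coe_zpow_neg (t : UU d) (i : ℤ) : (t ^ (-i) : UU d).1 = ((t ^ i : UU d).1)ᴴ := by
  rw [_root_.zpow_neg]
  exact coe_inv_u _

lemma cj_eq (t : UU d) (i : ℤ) (e : Mt d) :
    cj t i e = (t ^ i : UU d).1 * e * ((t ^ i : UU d).1)ᴴ := by
  rw [cj, coe_zpow_neg]

lemma isP_cj {q : Mt d} (h : IsP q) (t : UU d) (i : ℤ) : IsP (cj t i q) := by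
  rw [cj_eq]
  have hu := uh_mul (t ^ i)
  refine ⟨?_, ?_⟩
  · show ((t ^ i : UU d).1 * q * ((t ^ i : UU d).1)ᴴ)ᴴ = _
    rw [conjTranspose_mul, conjTranspose_mul, conjTranspose_conjTranspose, h.1.eq, mul_assoc]
  · calc (t ^ i : UU d).1 * q * ((t ^ i : UU d).1)ᴴ *
          ((t ^ i : UU d).1 * q * ((t ^ i : UU d).1)ᴴ)
        = (t ^ i : UU d).1 * q * (((t ^ i : UU d).1)ᴴ * (t ^ i : UU d).1) * q *
          ((t ^ i : UU d).1)ᴴ := by simp only [mul_assoc]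
      _ = (t ^ i : UU d).1 * (q * q) * ((t ^ i : UU d).1)ᴴ := by
          rw [hu, mul_one]
          simp only [mul_assoc]
      _ = _ := by rw [h.2]

lemma rtr_cj (t : UU d) (i : ℤ) (e : Mt d) : rtr (cj t i e) = rtr e := by
  rw [cj_eq, rtr_comm, ← mul_assoc, uh_mul, one_mul]

lemma fn_cj (t : UU d) (i : ℤ) (e : Mt d) : fn (cj t i e) = fn e := by
  unfold fn
  rw [cj_eq, fro_mul_right _, fro_mul_left _ (uh_mul _)]
  rw [conjTranspose_conjTranspose]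
  exact uh_mul _

lemma cj_sub (t : UU d) (i : ℤ) (a b : Mt d) : cj t i (a - b) = cj t i a - cj t i b := by
  rw [cj_eq, cj_eq, cj_eq, mul_sub, sub_mul]

lemma cj_cj (t : UU d) (i j : ℤ) (a : Mt d) : cj t i (cj t j a) = cj t (i + j) a := by
  have e1 : (t ^ (i + j) : UU d).1 = (t ^ i : UU d).1 * (t ^ j : UU d).1 := by
    rw [_root_.zpow_add]
    rfl
  rw [cj_eq, cj_eq, cj_eq, e1, conjTranspose_mul]
  simp only [mul_assoc]

lemma cj_zero (t : UU d) (a : Mt d) : cj t 0 a = a := by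
  have e1 : (t ^ (0 : ℤ) : UU d).1 = 1 := by
    rw [_root_.zpow_zero]
    rfl
  rw [cj_eq, e1, conjTranspose_one, one_mul, mul_one]

lemma fn_nat (t : UU d) (q : Mt d) (i : ℕ) :
    fn (q - cj t i q) ≤ i * fn (q - cj t 1 q) := by
  induction i with
  | zero =>
    rw [Nat.cast_zero, cj_zero, sub_self, fn_zero, Nat.cast_zero, zero_mul]
  | succ i ih =>
    have h1 := fn_sub_le q (cj t i q) (cj t ((i : ℤ) + 1) q)
    have h2 : cj t i q - cj t ((i : ℤ) + 1) q = cj t i (q - cj t 1 q) := by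
      rw [cj_sub, cj_cj]
    rw [h2, fn_cj] at h1
    push_cast
    linarith

lemma fn_int (t : UU d) (q : Mt d) (i : ℤ) :
    fn (q - cj t i q) ≤ |(i : ℝ)| * fn (q - cj t 1 q) := by
  obtain ⟨k, rfl | rfl⟩ := i.eq_nat_or_neg
  · have h1 := fn_nat t q k
    push_cast
    rwa [abs_of_nonneg (Nat.cast_nonneg k)]
  · have h1 := fn_nat t q k
    have h2 : cj t (-(k : ℤ)) (cj t k q - q) = q - cj t (-(k : ℤ)) q := by
      rw [cj_sub, cj_cj, neg_add_cancel, cj_zero]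
    rw [← h2, fn_cj, fn_sub_comm]
    push_cast
    rwa [abs_neg, abs_of_nonneg (Nat.cast_nonneg k)]

/-- the part which leaves `q` -/
lemma exq_le (t : UU d) {q : Mt d} (h : IsP q) (K : ℕ) :
    exq t q K ≤ (2 * K + 1) * ((K : ℝ) ^ 2 * fro (q - cj t 1 q)) := by
  have h1 : ∀ i ∈ Finset.Icc (-(K : ℤ)) K,
      rtr (q * (1 - cj t i q)) ≤ (K : ℝ) ^ 2 * fro (q - cj t 1 q) := by
    intro i hi
    rw [Finset.mem_Icc] at hi
    have h2 := fro_sub h (isP_cj h t i) (rtr_cj t i q)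
    have h3 := fn_int t q i
    have h4 : |(i : ℝ)| ≤ K := by
      rw [abs_le]
      constructor
      · exact_mod_cast hi.1
      · exact_mod_cast hi.2
    have h5 : fn (q - cj t i q) ≤ K * fn (q - cj t 1 q) :=
      h3.trans (mul_le_mul_of_nonneg_right h4 (fn_nonneg _))
    have h6 := pow_le_pow_left₀ (fn_nonneg _) h5 2
    rw [mul_pow, fn_sq, fn_sq] at h6
    have h7 : 0 ≤ rtr (q * (1 - cj t i q)) := by
      have := fro_nonneg (q - cj t i q)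
      linarith
    linarith
  refine (Finset.sum_le_sum h1).trans ?_
  rw [Finset.sum_const, nsmul_eq_mul]
  have h8 : (Finset.Icc (-(K : ℤ)) K).card = 2 * K + 1 := by
    rw [Int.card_Icc]
    omega
  rw [h8]
  push_cast
  exact le_refl _

lemma fro_add_le (a b : Mt d) : fro (a + b) ≤ 2 * (fro a + fro b) := by
  have h1 := fn_add_le a b
  have h2 := pow_le_pow_left₀ (fn_nonneg _) h1 2
  rw [← fn_sq, ← fn_sq a, ← fn_sq b]
  nlinarith [sq_nonneg (fn a - fn b)]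

end cj

section comb

variable {d : ℕ} {G : Type} [Group G]

lemma one_sub_mul {q : Mt d} (h : IsP q) {U : UU d} (hU : U.1 * (1 - q) = 1 - q) :
    (1 - q) * U.1 = 1 - q := by
  have h1 : (U.1)ᴴ * (1 - q) = 1 - q := by
    conv_lhs => rw [← hU]
    rw [← mul_assoc, uh_mul, one_mul]
  have h2 := congrArg conjTranspose h1
  rwa [conjTranspose_mul, conjTranspose_conjTranspose, (isP_compl h).1.eq] at h2

lemma sub_one_mul {q : Mt d} {U : UU d} (hU : U.1 * (1 - q) = 1 - q) :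
    (U.1 - 1) * q = U.1 - 1 := by
  have h1 : U.1 - U.1 * q = 1 - q := by rwa [mul_sub, mul_one] at hU
  have h2 : U.1 * q = U.1 - (1 - q) := by
    rw [← h1]
    abel
  rw [sub_mul, one_mul, h2]
  abel

lemma mul_sub_one {q : Mt d} (h : IsP q) {U : UU d} (hU : U.1 * (1 - q) = 1 - q) :
    q * (U.1 - 1) = U.1 - 1 := by
  have h1 : U.1 - q * U.1 = 1 - q := by
    have := one_sub_mul h hU
    rwa [sub_mul, one_mul] at this
  have h2 : q * U.1 = U.1 - (1 - q) := by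
    rw [← h1]
    abel
  rw [mul_sub, mul_one, h2]
  abel

/-- unitary matrices which act on orthogonal parts commute -/
lemma comm_of {q q' : Mt d} (h : IsP q) (h' : IsP q') (hqq : q * q' = 0) (hqq' : q' * q = 0)
    {U V : UU d} (hU : U.1 * (1 - q) = 1 - q) (hV : V.1 * (1 - q') = 1 - q') : U * V = V * U := by
  apply Subtype.ext
  show U.1 * V.1 = V.1 * U.1
  have h1 : (U.1 - 1) * (V.1 - 1) = 0 := by
    rw [← sub_one_mul hU, ← mul_sub_one h' hV, mul_assoc, ← mul_assoc q, hqq, zero_mul, mul_zero]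
  have h2 : (V.1 - 1) * (U.1 - 1) = 0 := by
    rw [← sub_one_mul hV, ← mul_sub_one h hU, mul_assoc, ← mul_assoc q', hqq', zero_mul, mul_zero]
  have h3 : U.1 * V.1 = (U.1 - 1) * (V.1 - 1) + U.1 + V.1 - 1 := by noncomm_ring
  have h4 : V.1 * U.1 = (V.1 - 1) * (U.1 - 1) + U.1 + V.1 - 1 := by noncomm_ring
  rw [h3, h4, h1, h2]

/-- gluing -/
lemma glue {q1 q2 q3 : Mt d} (h1 : IsP q1) (h2 : IsP q2) (h3 : IsP q3)
    (h12 : q1 * q2 = 0) (h21 : q2 * q1 = 0) (h13 : q1 * q3 = 0) (h31 : q3 * q1 = 0)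
    (h23 : q2 * q3 = 0) (h32 : q3 * q2 = 0) (h : q1 + q2 + q3 = 1) (ψ1 ψ2 ψ3 : G →* UU d)
    (hψ1 : ∀ g, (ψ1 g).1 * (1 - q1) = 1 - q1) (hψ2 : ∀ g, (ψ2 g).1 * (1 - q2) = 1 - q2)
    (hψ3 : ∀ g, (ψ3 g).1 * (1 - q3) = 1 - q3) :
    ∃ ψ : G →* UU d, ∀ g (x : Mt d), fro ((ψ g).1 - x) =
      fro (((ψ1 g).1 - x) * q1) + fro (((ψ2 g).1 - x) * q2) + fro (((ψ3 g).1 - x) * q3) := by
  have c12 : ∀ g g', ψ1 g * ψ2 g' = ψ2 g' * ψ1 g := fun g g' =>
    comm_of h1 h2 h12 h21 (hψ1 g) (hψ2 g')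
  have c13 : ∀ g g', ψ1 g * ψ3 g' = ψ3 g' * ψ1 g := fun g g' =>
    comm_of h1 h3 h13 h31 (hψ1 g) (hψ3 g')
  have c23 : ∀ g g', ψ2 g * ψ3 g' = ψ3 g' * ψ2 g := fun g g' =>
    comm_of h2 h3 h23 h32 (hψ2 g) (hψ3 g')
  have fix : ∀ (q q' : Mt d) (U : UU d), U.1 * (1 - q) = 1 - q → q * q' = 0 → U.1 * q' = q' := by
    intro q q' U hU hqq
    have e1 : (1 - q) * q' = q' := by rw [sub_mul, one_mul, hqq, sub_zero]
    rw [← e1, ← mul_assoc, hU, e1]
  refine ⟨{ toFun := fun g => ψ1 g * (ψ2 g * ψ3 g)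
            map_one' := by simp
            map_mul' := ?_ }, ?_⟩
  · intro g g'
    rw [map_mul, map_mul, map_mul]
    calc ψ1 g * ψ1 g' * (ψ2 g * ψ2 g' * (ψ3 g * ψ3 g'))
        = ψ1 g * (ψ1 g' * ψ2 g) * (ψ2 g' * ψ3 g) * ψ3 g' := by simp only [mul_assoc]
      _ = ψ1 g * (ψ2 g * ψ1 g') * (ψ3 g * ψ2 g') * ψ3 g' := by rw [c12, c23]
      _ = ψ1 g * ψ2 g * (ψ1 g' * ψ3 g) * ψ2 g' * ψ3 g' := by simp only [mul_assoc]
      _ = ψ1 g * ψ2 g * (ψ3 g * ψ1 g') * ψ2 g' * ψ3 g' := by rw [c13]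
      _ = ψ1 g * (ψ2 g * ψ3 g) * (ψ1 g' * (ψ2 g' * ψ3 g')) := by simp only [mul_assoc]
  · intro g x
    have f1 : (ψ1 g).1 * ((ψ2 g).1 * (ψ3 g).1) * q1 = (ψ1 g).1 * q1 := by
      rw [mul_assoc, mul_assoc, fix q3 q1 _ (hψ3 g) h31, fix q2 q1 _ (hψ2 g) h21]
    have e12 : (ψ1 g).1 * (ψ2 g).1 = (ψ2 g).1 * (ψ1 g).1 := congrArg Subtype.val (c12 g g)
    have e13 : (ψ1 g).1 * (ψ3 g).1 = (ψ3 g).1 * (ψ1 g).1 := congrArg Subtype.val (c13 g g)
    have e23 : (ψ2 g).1 * (ψ3 g).1 = (ψ3 g).1 * (ψ2 g).1 := congrArg Subtype.val (c23 g g)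
    have f2 : (ψ1 g).1 * ((ψ2 g).1 * (ψ3 g).1) * q2 = (ψ2 g).1 * q2 := by
      rw [← mul_assoc, e12, mul_assoc, mul_assoc, fix q3 q2 _ (hψ3 g) h32,
        fix q1 q2 _ (hψ1 g) h12]
    have f3 : (ψ1 g).1 * ((ψ2 g).1 * (ψ3 g).1) * q3 = (ψ3 g).1 * q3 := by
      rw [e23, ← mul_assoc, e13, mul_assoc, mul_assoc, fix q2 q3 _ (hψ2 g) h23,
        fix q1 q3 _ (hψ1 g) h13]
    show fro ((ψ1 g).1 * ((ψ2 g).1 * (ψ3 g).1) - x) = _
    rw [fro_split h1 h2 h3 h, sub_mul, f1, sub_mul, f2, sub_mul, f3, ← sub_mul, ← sub_mul,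
      ← sub_mul]

end comb

/-- telescoping -/
lemma pigeon (f : ℕ → ℝ) (M : ℕ) (hM : 0 < M) (D : ℝ) (h0 : f 0 ≤ D) (h1 : 0 ≤ f M) :
    ∃ k < M, f k - f (k + 1) ≤ D / M := by
  have hM' : (0 : ℝ) < M := by exact_mod_cast hM
  obtain ⟨k, hk, hle⟩ := Finset.exists_le_of_sum_le (s := Finset.range M)
    (f := fun k => f k - f (k + 1)) (g := fun _ => D / M) ⟨0, Finset.mem_range.2 hM⟩ (by
      rw [Finset.sum_range_sub', Finset.sum_const, Finset.card_range, nsmul_eq_mul,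
        mul_div_cancel₀ _ hM'.ne']
      linarith)
  exact ⟨k, Finset.mem_range.1 hk, hle⟩

instance countable_NN (p : ℕ) [Fact p.Prime] : Countable (NN p) := by
  have : NeZero p := ⟨(Fact.out : p.Prime).ne_zero⟩
  have h1 : Countable (ZMod p) := Finite.to_countable
  have h2 : Countable (Lam →₀ ZMod p) := inferInstance
  have h3 : Function.Injective (fun x : NN p => (x.a, x.l)) := by
    intro x y h
    rw [Prod.mk.injEq] at h
    exact NN.ext h.1 h.2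
  exact h3.countable

theorem t_HST (hO : S_OK) (hR : S_REDH) (hS : S_SKYH) (hF : S_FINH) (hA : S_STEPA)
    (hB : S_STEPB) (hP : S_PROJ) : S_HST := by
  intro p _ hp
  refine hR (NN p) (SS p) (hO p) ?_
  intro m ε hε
  -- the constants
  obtain ⟨l, hl0, hl⟩ : ∃ l : ℕ, 0 < l ∧ 16 * (2 * m + 3) / (l : ℝ) ≤ ε / 8 := by
    obtain ⟨l, hl⟩ := exists_nat_ge (16 * (2 * m + 3) * 8 / ε)
    refine ⟨l + 1, Nat.succ_pos l, ?_⟩
    have h1 : (0 : ℝ) < ((l + 1 : ℕ) : ℝ) := by positivity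
    rw [div_le_div_iff₀ h1 (by norm_num)]
    rw [div_le_iff₀ hε] at hl
    push_cast
    nlinarith
  have hl0' : (0 : ℝ) < l := by exact_mod_cast hl0
  obtain ⟨K, hK⟩ : ∃ K : ℕ, 64 * (1 - 1 / (l : ℝ)) ^ K ≤ ε / 8 := by
    have h1 : 1 - 1 / (l : ℝ) < 1 := by
      have : 0 < 1 / (l : ℝ) := by positivity
      linarith
    obtain ⟨K, hK⟩ := exists_pow_lt_of_lt_one (show (0 : ℝ) < ε / 512 by positivity) h1
    exact ⟨K, by linarith⟩
  obtain ⟨q, hq0, hA⟩ := hA p l K (ε / 64) hl0 (by positivity)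
  obtain ⟨q', hq'0, hqq', c, hB⟩ := hB p l K q hl0 hq0
  obtain ⟨w0, η, hη, hF⟩ := hF (NN p) (SS p) (hO p) q' m (ε / 4) hq'0 (by positivity)
  obtain ⟨M, hM0, hM1, hM2⟩ : ∃ M : ℕ, 0 < M ∧ 2 / (M : ℝ) ≤ η ∧
      16 * ((2 * K + 1) * ((K : ℝ) ^ 2 * (16 / M))) ≤ ε / 8 := by
    obtain ⟨M, hM⟩ := exists_nat_ge
      (2 / η + 16 * ((2 * K + 1) * ((K : ℝ) ^ 2 * 16)) * 8 / ε)
    have e1 : 0 < 2 / η := by positivity
    have e2 : 0 ≤ 16 * ((2 * K + 1) * ((K : ℝ) ^ 2 * 16)) * 8 / ε := by positivity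
    have h1 : (0 : ℝ) < M := by linarith
    refine ⟨M, by exact_mod_cast h1, ?_, ?_⟩
    · rw [div_le_iff₀ h1, mul_comm, ← div_le_iff₀ hη]
      linarith
    · have e3 : 16 * ((2 * K + 1) * ((K : ℝ) ^ 2 * 16)) * 8 / ε ≤ M := by linarith
      rw [div_le_iff₀ hε] at e3
      have e4 : 16 * ((2 * K + 1) * ((K : ℝ) ^ 2 * (16 / M))) =
          16 * ((2 * K + 1) * ((K : ℝ) ^ 2 * 16)) / M := by ring
      rw [e4, div_le_div_iff₀ h1 (by norm_num)]
      linarith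
  have hM0' : (0 : ℝ) < M := by exact_mod_cast hM0
  obtain ⟨R0, hR0⟩ : ∃ R0 : ℕ → ℕ, ∀ w, 2 * K ≤ w → ∀ R ≥ R0 w, ∀ (d : ℕ) (α : NN p → UU d)
      (t : UU d), Act (SS p) R α t → ∃ e : Mt d, Mk (SS p) (2 * K) α t e (1 - pA p q w α) ∧
        rtr e ≤ 2 / l * d ∧
        rtr ((1 - pA p q w α) * uB t e K) ≤ (4 * (1 - 1 / (l : ℝ)) ^ K + ε / 64) * d ∧
        rtr ((1 - pA p q w α) * uF t e K) ≤ (4 * (1 - 1 / (l : ℝ)) ^ K + ε / 64) * d := by
    choose R0 hR0 using hA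
    refine ⟨fun w => if h : 2 * K ≤ w then R0 w h else 0, fun w hw R hR => ?_⟩
    have hw' : (if h : 2 * K ≤ w then R0 w h else 0) = R0 w hw := dif_pos hw
    have hR' : R ≥ if h : 2 * K ≤ w then R0 w h else 0 := hR
    rw [hw'] at hR'
    exact hR0 w hw R hR'
  obtain ⟨v0, hv0, hv0'⟩ : ∃ v0, w0 ≤ v0 ∧ 2 * K ≤ v0 :=
    ⟨max w0 (2 * K), le_max_left _ _, le_max_right _ _⟩
  obtain ⟨R, hRM, hRk⟩ : ∃ R : ℕ, v0 + c + M + c + 2 * K + m + 5 ≤ R ∧
      ∀ k < M, R0 (v0 + c + k) ≤ R := by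
    refine ⟨(v0 + c + M + c + 2 * K + m + 5) + (Finset.range M).sup fun k => R0 (v0 + c + k),
      by omega, fun k hk => ?_⟩
    have h1 : R0 (v0 + c + k) ≤ (Finset.range M).sup fun k => R0 (v0 + c + k) :=
      Finset.le_sup (f := fun k => R0 (v0 + c + k)) (Finset.mem_range.2 hk)
    omega
  refine ⟨R, by omega, ?_⟩
  intro d α t hact
  have hd : (0 : ℝ) ≤ d := Nat.cast_nonneg d
  -- the choice of the window
  have hPk : ∀ k ≤ M, _ := fun k hk =>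
    hP p q q' (v0 + k) (v0 + c + k) R hq0 hq'0 hqq' (by omega) (by omega) d α t hact
  obtain ⟨k, hk, hkle⟩ := pigeon (fun k => rtr (pA p q (v0 + c + k) α) +
      rtr (pA p q (v0 + c + k) α * pL p q' (v0 + k) α)) M hM0 (2 * d) (by
      obtain ⟨h1, h2, -⟩ := hPk 0 (Nat.zero_le M)
      have := rtr_le h1
      have := rtr_le h2
      linarith) (by
      obtain ⟨h1, h2, -⟩ := hPk M le_rfl
      exact add_nonneg (rtr_nonneg h1) (rtr_nonneg h2))
  obtain ⟨p1, p2, p3, p4, p5, p6, p7, p8⟩ := hPk k hk.le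
  have p7' := p7 (by omega)
  have p8' := p8 (by omega)
  obtain ⟨P, hPdef⟩ : ∃ P, P = pA p q (v0 + c + k) α := ⟨_, rfl⟩
  obtain ⟨P', hP'def⟩ : ∃ P', P' = P * pL p q' (v0 + k) α := ⟨_, rfl⟩
  rw [← hPdef, ← hP'def] at p2 p4 p5 p6 p8'
  rw [← hPdef] at p1 p3 p7'
  simp only [← add_assoc] at hkle
  rw [← hPdef, ← hP'def] at hkle
  have f1 := fro_sub p1 (isP_cj p1 t 1) (rtr_cj t 1 P)
  have f2 := fro_sub p2 (isP_cj p2 t 1) (rtr_cj t 1 P')
  have f3 := fro_nonneg (P - cj t 1 P)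
  have f4 := fro_nonneg (P' - cj t 1 P')
  have g1 : fro (P - cj t 1 P) ≤ 4 / M * d := by
    have : 2 * (d : ℝ) / M = 2 / M * d := by ring
    rw [this] at hkle
    have : 4 / (M : ℝ) * d = 2 * (2 / M * d) := by ring
    rw [this]
    linarith
  have g2 : fro (P' - cj t 1 P') ≤ 4 / M * d := by
    have : 2 * (d : ℝ) / M = 2 / M * d := by ring
    rw [this] at hkle
    have : 4 / (M : ℝ) * d = 2 * (2 / M * d) := by ring
    rw [this]
    linarith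
  have g3 : rtr (P' * (1 - cj t 1 P')) ≤ η * d := by
    have h1 : 2 / (M : ℝ) * d ≤ η * d := mul_le_mul_of_nonneg_right hM1 hd
    have : 4 / (M : ℝ) * d = 2 * (2 / M * d) := by ring
    rw [this] at g2
    linarith
  -- the adjoint relation
  have p6' : P' * P = P' := by
    have h1 := congrArg conjTranspose p6
    rwa [conjTranspose_mul, p1.1.eq, p2.1.eq] at h1
  have hq1 : IsP (1 - P) := isP_compl p1
  have hq2 : IsP (P - P') := by
    refine ⟨?_, ?_⟩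
    · show (P - P')ᴴ = P - P'
      rw [conjTranspose_sub, p1.1.eq, p2.1.eq]
    · rw [sub_mul, mul_sub, mul_sub, p1.2, p2.2, p6, p6']
      abel
  -- the regions
  have x1 : fro ((1 - P) - cj t 1 (1 - P)) ≤ 16 / M * d := by
    have e1 : cj t 1 (1 : Mt d) = 1 := by
      rw [cj_eq, mul_one]
      exact mul_uh _
    rw [cj_sub, e1, sub_sub_sub_cancel_left, fro_sub_comm]
    refine g1.trans ?_
    have : 16 / (M : ℝ) * d = 4 * (4 / M * d) := by ring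
    rw [this]
    have : 0 ≤ 4 / (M : ℝ) * d := by positivity
    linarith
  have x2 : fro ((P - P') - cj t 1 (P - P')) ≤ 16 / M * d := by
    have e1 : (P - P') - cj t 1 (P - P') = (P - cj t 1 P) + (cj t 1 P' - P') := by
      rw [cj_sub]
      abel
    rw [e1]
    refine (fro_add_le _ _).trans ?_
    rw [fro_sub_comm (cj t 1 P') P']
    have : 16 / (M : ℝ) * d = 4 * (4 / M * d) := by ring
    rw [this]
    linarith
  obtain ⟨X, hX⟩ : ∃ X, X = (2 * K + 1) * ((K : ℝ) ^ 2 * (16 / M)) := ⟨_, rfl⟩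
  rw [← hX] at hM2
  have hex : ∀ y : Mt d, IsP y → fro (y - cj t 1 y) ≤ 16 / M * d → exq t y K ≤ X * d := by
    intro y hy h1
    refine (exq_le t hy K).trans ?_
    have h2 : (2 * K + 1) * ((K : ℝ) ^ 2 * fro (y - cj t 1 y)) ≤
        (2 * K + 1) * ((K : ℝ) ^ 2 * (16 / M * d)) := by gcongr
    refine h2.trans (le_of_eq ?_)
    rw [hX]
    ring
  have y1 := hex _ hq1 x1
  have y2 := hex _ hq2 x2
  have hRR : 2 * K < R := by omega
  obtain ⟨e1, a1, a2, a3, a4⟩ := hR0 (v0 + c + k) (by omega) R (hRk k hk) d α t hact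
  rw [← hPdef] at a1 a3 a4
  obtain ⟨ψ1, b1, b2, b3⟩ := hS (NN p) (SS p) (hO p) m K R hRR d α t hact e1 (1 - P) a1
  obtain ⟨e2, c1, c2, c3, c4⟩ := hB (v0 + k) (v0 + c + k) R (by omega) (by omega) d α t hact
  rw [← hPdef, ← hP'def] at c1 c3 c4
  obtain ⟨ψ2, d1, d2, d3⟩ := hS (NN p) (SS p) (hO p) m K R hRR d α t hact e2 (P - P') c1
  obtain ⟨ψ3, u1, u2, u3⟩ := hF (v0 + k) (by omega) R (by omega) d α t hact P' p2 p4 p5 g3
  obtain ⟨ψ, hψ⟩ := glue hq1 hq2 p2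
    (by rw [sub_mul, one_mul, mul_sub, p1.2, p6, sub_self])
    (by rw [sub_mul, mul_sub, mul_sub, mul_one, mul_one, p1.2, p6', sub_self, sub_self, sub_self])
    (by rw [sub_mul, one_mul, p6, sub_self])
    (by rw [mul_sub, mul_one, p6', sub_self])
    (by rw [sub_mul, p6, p2.2, sub_self])
    (by rw [mul_sub, p6', p2.2, sub_self])
    (by abel) ψ1 ψ2 ψ3 b1 d1 u1
  have hεd : 0 ≤ ε * d := by positivity
  have hB1 : 4 * ((2 * m + 3) * rtr e1 + rtr ((1 - P) * uB t e1 K) + rtr ((1 - P) * uF t e1 K) +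
      exq t (1 - P) K) ≤ (ε * (5 / 16)) * d := by
    have h1 : (2 * (m : ℝ) + 3) * rtr e1 ≤ (2 * m + 3) * (2 / l * d) := by gcongr
    have h2 : (2 * (m : ℝ) + 3) * (2 / l * d) = (16 * (2 * m + 3) / l) * (d / 8) := by ring
    have h3 : (16 * (2 * (m : ℝ) + 3) / l) * (d / 8) ≤ ε / 8 * (d / 8) := by gcongr
    have h4 : (4 * (1 - 1 / (l : ℝ)) ^ K + ε / 64) * d ≤ (ε / 128 + ε / 64) * d := by
      gcongr
      linarith
    have h5 : X * d ≤ (ε / 128) * d := by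
      gcongr
      linarith
    linarith
  have hB2 : 4 * ((2 * m + 3) * rtr e2 + rtr ((P - P') * uB t e2 K) +
      rtr ((P - P') * uF t e2 K) + exq t (P - P') K) ≤ (ε * (7 / 32)) * d := by
    have h1 : (2 * (m : ℝ) + 3) * rtr e2 ≤ (2 * m + 3) * (2 / l * d) := by gcongr
    have h2 : (2 * (m : ℝ) + 3) * (2 / l * d) = (16 * (2 * m + 3) / l) * (d / 8) := by ring
    have h3 : (16 * (2 * (m : ℝ) + 3) / l) * (d / 8) ≤ ε / 8 * (d / 8) := by gcongr
    have h4 : (4 * (1 - 1 / (l : ℝ)) ^ K) * d ≤ (ε / 128) * d := by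
      gcongr
      linarith
    have h5 : X * d ≤ (ε / 128) * d := by
      gcongr
      linarith
    linarith
  refine ⟨ψ, ?_, ?_⟩
  · rw [hψ]
    linarith
  · intro n hn
    rw [hψ]
    have h1 := b3 n hn
    have h2 := d3 n hn
    have h3 := u3 n hn
    linarith

end Pool.Agent.N277.AS
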