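import Mathlib
import Pool.Agent.N757.AS.Stm

/-!
# Project AS (helper757), part DATA (helper277)
-/

set_option autoImplicit false

namespace Pool.Agent.N277.AS.DATA

open Polynomial
open Pool.Agent.N757.AS

section
variable {F : Type} [Field F]

/-- degree of `A ^ (g a) - B ^ (g b)` -/
lemma deg_le (a b g : ℕ) (hg : 1 ≤ g) (A B : F[X]) (hA : A.natDegree = b) (hB : B.natDegree = a)
    (h : (A ^ a - B ^ b).natDegree + a + b ≤ a * b + 1) :
    (A ^ (g * a) - B ^ (g * b)).natDegree + a + b ≤ g * a * b + 1 := by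
  have e : A ^ (g * a) - B ^ (g * b) =
      (∑ i ∈ Finset.range g, (A ^ a) ^ i * (B ^ b) ^ (g - 1 - i)) * (A ^ a - B ^ b) := by
    rw [(Commute.all (A ^ a) (B ^ b)).geom_sum₂_mul, ← pow_mul, ← pow_mul, mul_comm g a,
      mul_comm g b]
  have h1 : (∑ i ∈ Finset.range g, (A ^ a) ^ i * (B ^ b) ^ (g - 1 - i)).natDegree ≤
      (g - 1) * (a * b) := by
    refine Polynomial.natDegree_sum_le_of_forall_le _ _ ?_
    intro i hi
    rw [Finset.mem_range] at hi
    refine Polynomial.natDegree_mul_le.trans ?_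
    have h2 : ((A ^ a) ^ i).natDegree ≤ i * (a * b) := by
      rw [← pow_mul]
      refine Polynomial.natDegree_pow_le.trans (le_of_eq ?_)
      rw [hA]
      ring
    have h3 : ((B ^ b) ^ (g - 1 - i)).natDegree ≤ (g - 1 - i) * (a * b) := by
      rw [← pow_mul]
      refine Polynomial.natDegree_pow_le.trans (le_of_eq ?_)
      rw [hB]
      ring
    calc _ ≤ i * (a * b) + (g - 1 - i) * (a * b) := Nat.add_le_add h2 h3
      _ = (i + (g - 1 - i)) * (a * b) := by ring
      _ = (g - 1) * (a * b) := by congr 1; omega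
  have h4 : (A ^ (g * a) - B ^ (g * b)).natDegree ≤
      (g - 1) * (a * b) + (A ^ a - B ^ b).natDegree := by
    rw [e]
    exact Polynomial.natDegree_mul_le.trans (Nat.add_le_add_right h1 _)
  have h5 : (g - 1) * (a * b) + a * b = g * a * b := by
    obtain ⟨m, rfl⟩ : ∃ m, g = m + 1 := ⟨g - 1, by omega⟩
    simp only [Nat.add_sub_cancel]
    ring
  omega

/-- the linear substitution -/
noncomputable def ell (α κ : F) : F[X] := C κ * X + C α

lemma ell_deg (α κ : F) (hκ : κ ≠ 0) : (ell α κ).natDegree = 1 :=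
  Polynomial.natDegree_linear hκ

lemma ell_lead (α κ : F) (hκ : κ ≠ 0) : (ell α κ).leadingCoeff = κ :=
  Polynomial.leadingCoeff_linear hκ

/-- the normalised substitution -/
noncomputable def nrm (α κ : F) (b : ℕ) (A : F[X]) : F[X] := C (κ ^ b)⁻¹ * A.comp (ell α κ)

lemma nrm_natDegree (α κ : F) (hκ : κ ≠ 0) (b : ℕ) (A : F[X]) :
    (nrm α κ b A).natDegree = A.natDegree := by
  unfold nrm
  rw [Polynomial.natDegree_C_mul (inv_ne_zero (pow_ne_zero _ hκ)), Polynomial.natDegree_comp,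
    ell_deg α κ hκ, mul_one]

lemma nrm_monic (α κ : F) (hκ : κ ≠ 0) (A : F[X]) (hA : A.Monic) :
    (nrm α κ A.natDegree A).Monic := by
  unfold Polynomial.Monic nrm
  rw [Polynomial.leadingCoeff_mul, Polynomial.leadingCoeff_C,
    Polynomial.leadingCoeff_comp (by rw [ell_deg α κ hκ]; exact one_ne_zero), ell_lead α κ hκ,
    hA.leadingCoeff, one_mul]
  exact inv_mul_cancel₀ (pow_ne_zero _ hκ)

lemma nrm_coprime (α κ : F) (hκ : κ ≠ 0) (a b : ℕ) (A B : F[X]) (h : IsCoprime A B) :
    IsCoprime (nrm α κ b A) (nrm α κ a B) := by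
  unfold nrm
  have h1 : IsCoprime (A.comp (ell α κ)) (B.comp (ell α κ)) := by
    have := h.map (Polynomial.compRingHom (ell α κ))
    simpa using this
  have u1 : IsUnit (C (κ ^ b)⁻¹ : F[X]) :=
    Polynomial.isUnit_C.2 (isUnit_iff_ne_zero.2 (inv_ne_zero (pow_ne_zero _ hκ)))
  have u2 : IsUnit (C (κ ^ a)⁻¹ : F[X]) :=
    Polynomial.isUnit_C.2 (isUnit_iff_ne_zero.2 (inv_ne_zero (pow_ne_zero _ hκ)))
  exact (isCoprime_mul_unit_left_left u1 _ _).2 ((isCoprime_mul_unit_left_right u2 _ _).2 h1)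

lemma nrm_sub (α κ : F) (a b p q : ℕ) (hpq : p * b = q * a) (A B : F[X]) :
    nrm α κ b A ^ p - nrm α κ a B ^ q = C (κ ^ (p * b))⁻¹ * (A ^ p - B ^ q).comp (ell α κ) := by
  unfold nrm
  have e1 : (C (κ ^ b)⁻¹ : F[X]) ^ p = C (κ ^ (p * b))⁻¹ := by
    rw [← C_pow, inv_pow, ← pow_mul, mul_comm b p]
  have e2 : (C (κ ^ a)⁻¹ : F[X]) ^ q = C (κ ^ (p * b))⁻¹ := by
    rw [← C_pow, inv_pow, ← pow_mul, mul_comm a q, hpq]
  rw [mul_pow, mul_pow, e1, e2, Polynomial.sub_comp, Polynomial.pow_comp, Polynomial.pow_comp]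
  ring

end

theorem t (h1 : StmDZ) (h2 : StmCop) (h3 : StmTwo) : StmData := by
  intro F _ _ _ p q hp hq hpq
  set g := Nat.gcd p q with hgdef
  have hg : 0 < g := Nat.gcd_pos_of_pos_left _ (by omega)
  obtain ⟨a, ha⟩ : g ∣ p := Nat.gcd_dvd_left p q
  obtain ⟨b, hb⟩ : g ∣ q := Nat.gcd_dvd_right p q
  have hab : Nat.Coprime a b := by
    have := Nat.coprime_div_gcd_div_gcd hg
    rwa [← hgdef, ha, hb, Nat.mul_div_cancel_left _ hg, Nat.mul_div_cancel_left _ hg] at this
  clear_value g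
  have ha1 : 1 ≤ a := by
    rcases Nat.eq_zero_or_pos a with h | h
    · rw [h, mul_zero] at ha; omega
    · exact h
  have hb1 : 1 ≤ b := by
    rcases Nat.eq_zero_or_pos b with h | h
    · rw [h, mul_zero] at hb; omega
    · exact h
  obtain ⟨A, B, hA, hB, dA, dB, hne, hd⟩ := h1 F a b ha1 hb1 hab
  have hcop := h2 F a b A B ha1 hb1 hA hB dA dB hne hd
  have hN : p * b = q * a := by rw [ha, hb]; ring
  have hN2 : p * b = g * a * b := by rw [ha]
  have hlarge : a + b + 1 ≤ p * b := by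
    rw [hN2]
    rcases Nat.lt_or_ge a 2 with h | h
    · have ea : a = 1 := by omega
      rcases Nat.lt_or_ge b 2 with h' | h'
      · have eb : b = 1 := by omega
        rw [ea, mul_one] at ha
        rw [eb, mul_one] at hb
        have : ¬ (g = 2) := fun hh => hpq ⟨by omega, by omega⟩
        rw [ea, eb]
        omega
      · rw [ea, mul_one] at ha
        have : 2 ≤ g := by omega
        rw [ea, mul_one]
        nlinarith
    · rcases Nat.lt_or_ge b 2 with h' | h'
      · have eb : b = 1 := by omega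
        rw [eb, mul_one] at hb
        have : 2 ≤ g := by omega
        rw [eb, mul_one]
        nlinarith
      · have hne : a ≠ b := by
          rintro rfl
          rw [Nat.coprime_self] at hab
          omega
        have h5 : a + b + 1 ≤ a * b := by
          rcases Nat.lt_or_gt_of_ne hne with h6 | h6
          · nlinarith
          · nlinarith
        calc a + b + 1 ≤ a * b := h5
          _ = 1 * (a * b) := (one_mul _).symm
          _ ≤ g * (a * b) := Nat.mul_le_mul_right _ hg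
          _ = g * a * b := by ring
  obtain ⟨α, β, hαβ, hα, hβ⟩ := h3 F p q A B (by omega) (by omega) (by omega) hcop
    (by rw [dA, dB, hN]) (by rw [dA, dB]; omega)
  set κ := β - α with hκdef
  have hκ : κ ≠ 0 := sub_ne_zero.2 hαβ.symm
  have hG0 : A ^ p - B ^ q ≠ 0 := by
    intro h
    have h6 : A ^ p = B ^ q := sub_eq_zero.1 h
    have h7 : IsCoprime (A ^ p) (B ^ q) := hcop.pow
    rw [← h6, isCoprime_self] at h7
    have h8 := Polynomial.natDegree_eq_zero_of_isUnit h7
    rw [Polynomial.natDegree_pow, dA] at h8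
    have : 0 < p * b := Nat.mul_pos (by omega) (by omega)
    omega
  have hdeg := deg_le a b g hg A B dA dB hd
  rw [← ha, ← hb] at hdeg
  set A1 := nrm α κ b A with hA1
  set B1 := nrm α κ a B with hB1
  have eG := nrm_sub α κ a b p q hN A B
  rw [← hA1, ← hB1] at eG
  have hc : (κ ^ (p * b))⁻¹ ≠ 0 := inv_ne_zero (pow_ne_zero _ hκ)
  have hGd : (A1 ^ p - B1 ^ q).natDegree = (A ^ p - B ^ q).natDegree := by
    rw [eG, Polynomial.natDegree_C_mul hc, Polynomial.natDegree_comp, ell_deg α κ hκ, mul_one]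
  have hGne : A1 ^ p - B1 ^ q ≠ 0 := by
    rw [eG]
    refine mul_ne_zero (by simpa using pow_ne_zero (p * b) hκ) ?_
    intro h
    rcases Polynomial.comp_eq_zero_iff.1 h with h | ⟨-, h⟩
    · exact hG0 h
    · have := congrArg Polynomial.natDegree h
      rw [ell_deg α κ hκ, Polynomial.natDegree_C] at this
      exact one_ne_zero this
  have r0 : (A1 ^ p - B1 ^ q).eval 0 = 0 := by
    rw [eG, Polynomial.eval_mul, Polynomial.eval_comp]
    have : (ell α κ).eval 0 = α := by simp [ell]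
    rw [this, hα, mul_zero]
  have r1 : (A1 ^ p - B1 ^ q).eval 1 = 0 := by
    rw [eG, Polynomial.eval_mul, Polynomial.eval_comp]
    have : (ell α κ).eval 1 = β := by simp [ell, hκdef]
    rw [this, hβ, mul_zero]
  have d0 : (X : F[X]) ∣ A1 ^ p - B1 ^ q := by
    have := Polynomial.dvd_iff_isRoot.2 r0
    rwa [map_zero, sub_zero] at this
  have d1 : (X - 1 : F[X]) ∣ A1 ^ p - B1 ^ q := by
    have := Polynomial.dvd_iff_isRoot.2 r1
    rwa [map_one] at this
  have hX : IsCoprime (X : F[X]) (X - 1) := ⟨1, -1, by ring⟩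
  obtain ⟨U, hU⟩ := hX.mul_dvd d0 d1
  have hU0 : U ≠ 0 := by
    rintro rfl
    rw [mul_zero] at hU
    exact hGne hU
  refine ⟨A1, B1, U, ?_, ?_, ?_, ?_, hU0, hU, ?_⟩
  · rw [hA1, ← dA]
    exact nrm_monic α κ hκ A hA
  · rw [hB1, ← dB]
    exact nrm_monic α κ hκ B hB
  · rw [hA1, hB1, nrm_natDegree α κ hκ, nrm_natDegree α κ hκ, dA, dB, hN]
  · exact nrm_coprime α κ hκ a b A B hcop
  · have hX1 : (X - 1 : F[X]) ≠ 0 := by
      have := Polynomial.X_sub_C_ne_zero (1 : F)
      rwa [map_one] at this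
    have hX1d : (X - 1 : F[X]).natDegree = 1 := by
      have := Polynomial.natDegree_X_sub_C (1 : F)
      rwa [map_one] at this
    have h9 : (A1 ^ p - B1 ^ q).natDegree = 2 + U.natDegree := by
      rw [hU, Polynomial.natDegree_mul (mul_ne_zero Polynomial.X_ne_zero hX1) hU0,
        Polynomial.natDegree_mul Polynomial.X_ne_zero hX1, Polynomial.natDegree_X, hX1d]
    rw [hA1, hB1, nrm_natDegree α κ hκ, nrm_natDegree α κ hκ, dA, dB]
    rw [hGd] at h9
    omega

end Pool.Agent.N277.AS.DATA
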